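import Pool.Agent.H7.GV.Stmts

set_option autoImplicit false

open Finset

namespace Pool.GV7

open Pool.Agent.H23.KT Pool.Agent.H46.KW Pool.KQ Pool.GT7 Pool.GU7

theorem NDM9_num (p r : ℕ) (hp2 : 2 ≤ p) (hr2' : 2 ≤ r) (hrb' : 2 * r ≤ p + 2)
    (hlast : 2 * ((r : ℝ) - 1) * ((p : ℝ) + 2) ≤ 2 / 3 * (p : ℝ) * (2 * (p : ℝ) + 4 - r))
    (ε μ A N S1 S2 T κ c : ℝ)
    (hA : 0 < A) (hε : ε = e1 p / (128 * ((p : ℝ) + 3) ^ 3)) (hc : 1 ≤ c)
    (h2 : N ≤ (1 + ε) * A) (h3 : μ * A - ε * A ≤ S1)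
    (h5 : S2 ≤ μ * A + ((p : ℝ) + 1) / ((p : ℝ) + 2) * (μ ^ 2 * A) + ε * A)
    (h6 : κ ≤ c * (S2 - S1) / (((p : ℝ) + 2) * ((p : ℝ) + 1)) + ε * A)
    (h7 : μ ≤ (p : ℝ) + 2 - e1 p / 8)
    (h8 : m9 p - 1 / 12 ≤ μ)
    (hT : T ≤ N)
    (hs : (2 * (p : ℝ) + 4 - r) * ((p : ℝ) + 2) * S1 - (2 * (p : ℝ) + 4 - r) * S2 -
      2 * ((r : ℝ) - 1) * ((p : ℝ) + 1) * ((p : ℝ) + 2) * N +
      2 * ((r : ℝ) - 1) * ((p : ℝ) + 1) * S1 ≤
      ((p : ℝ) + 3 - r) * (((p : ℝ) + 2) * ((p : ℝ) + 1) * T - (S2 - S1)))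
    (t : ℝ) (ht : t * (256 * ((p : ℝ) + 3) ^ 3) ≤ e1 p) (ht0 : 0 ≤ t) :
    κ ≤ (1 - t) * (c * T) := by
  have hp2R : (2 : ℝ) ≤ p := by exact_mod_cast hp2
  have hp0 : (0 : ℝ) ≤ p := Nat.cast_nonneg p
  have he : 0 < e1 p := by unfold e1; positivity
  have he1 : e1 p ≤ 1 := by
    unfold e1
    rw [div_le_one (by positivity)]
    have : (1 : ℝ) ≤ ((p : ℝ) + 3) ^ 3 := one_le_pow₀ (by linarith)
    linarith
  have hr2 : (2 : ℝ) ≤ r := by exact_mod_cast hr2'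
  have hrb : 2 * (r : ℝ) ≤ p + 2 := by exact_mod_cast hrb'
  have hb3 : (0 : ℝ) < ((p : ℝ) + 3) ^ 3 := by positivity
  have hε0 : 0 < ε := by rw [hε]; positivity
  have hεe : ε * (128 * ((p : ℝ) + 3) ^ 3) = e1 p := by
    rw [hε]; field_simp
  have hb27 : (27 : ℝ) ≤ ((p : ℝ) + 3) ^ 3 := by
    have : (3 : ℝ) ^ 3 ≤ ((p : ℝ) + 3) ^ 3 := pow_le_pow_left₀ (by norm_num) (by linarith) 3
    linarith
  have hε1 : ε ≤ 1 := by nlinarith
  obtain ⟨C, hC⟩ : ∃ C : ℝ, C = 2 * (p : ℝ) + 4 - r := ⟨_, rfl⟩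
  obtain ⟨d, hd⟩ : ∃ d : ℝ, d = 2 * ((r : ℝ) - 1) * ((p : ℝ) + 1) := ⟨_, rfl⟩
  have hd0 : 0 ≤ d := by rw [hd]; apply mul_nonneg <;> linarith
  have hC1 : 3 / 2 * ((p : ℝ) + 2) ≤ C := by rw [hC]; linarith
  have hC0 : 0 < C := by linarith
  obtain ⟨q, hq⟩ : ∃ q : ℝ, q = ((p : ℝ) + 1) / ((p : ℝ) + 2) := ⟨_, rfl⟩
  have hq0 : 0 < q := by rw [hq]; positivity
  have hqp : q * ((p : ℝ) + 2) = p + 1 := by rw [hq]; field_simp
  rw [← hq] at h5
  rw [← hC] at hs hlast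
  -- the second factor
  have hf : 1 / 4 ≤ C * (μ * q) - d := by
    have k1 : 2 / 3 * (p : ℝ) + 1 / 12 ≤ μ := by unfold m9 at h8; linarith
    have k2 : C * ((2 / 3 * (p : ℝ) + 1 / 12) * q) ≤ C * (μ * q) :=
      mul_le_mul_of_nonneg_left (mul_le_mul_of_nonneg_right k1 hq0.le) hC0.le
    have k3 : d ≤ C * (2 / 3 * (p : ℝ) * q) := by
      have e : d = 2 * ((r : ℝ) - 1) * ((p : ℝ) + 2) * q := by
        rw [hd, ← hqp]; ring
      rw [e]
      have := mul_le_mul_of_nonneg_right hlast hq0.le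
      linarith
    have k4 : 1 / 4 ≤ C * (1 / 12 * q) := by
      have : 3 / 2 * ((p : ℝ) + 2) * (1 / 12 * q) ≤ C * (1 / 12 * q) :=
        mul_le_mul_of_nonneg_right hC1 (by positivity)
      have e : 3 / 2 * ((p : ℝ) + 2) * (1 / 12 * q) = (p + 1) / 8 := by
        rw [← hqp]; ring
      rw [e] at this
      linarith
    linarith
  have hprod : e1 p / 8 * (1 / 4) ≤ ((p : ℝ) + 2 - μ) * (C * (μ * q) - d) :=
    mul_le_mul (by linarith) hf (by norm_num) (by linarith)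
  have hexp : ((p : ℝ) + 2 - μ) * (C * (μ * q) - d) =
      (C * ((p : ℝ) + 1) + d) * μ - d * ((p : ℝ) + 2) - C * (q * μ ^ 2) := by
    rw [← hqp]; ring
  rw [hexp] at hprod
  have hCd : C + d ≤ ((p : ℝ) + 3) ^ 2 := by
    rw [hC, hd]
    nlinarith
  -- the lower bound of the left side
  have hs' : C * ((p : ℝ) + 2) * S1 - C * S2 - d * ((p : ℝ) + 2) * N + d * S1 ≤
      ((p : ℝ) + 3 - r) * (((p : ℝ) + 2) * ((p : ℝ) + 1) * T - (S2 - S1)) := by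
    rw [hd]; linarith
  have hl : (e1 p / 32 - ε * ((p : ℝ) + 3) ^ 3) * A ≤
      C * ((p : ℝ) + 2) * S1 - C * S2 - d * ((p : ℝ) + 2) * N + d * S1 := by
    have q1 : (C * ((p : ℝ) + 2) + d) * (μ * A - ε * A) ≤ (C * ((p : ℝ) + 2) + d) * S1 :=
      mul_le_mul_of_nonneg_left h3 (by positivity)
    have q2 : d * ((p : ℝ) + 2) * N ≤ d * ((p : ℝ) + 2) * ((1 + ε) * A) :=
      mul_le_mul_of_nonneg_left h2 (by positivity)
    have q5 : C * S2 ≤ C * (μ * A + q * (μ ^ 2 * A) + ε * A) :=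
      mul_le_mul_of_nonneg_left h5 hC0.le
    have q3 : (e1 p / 8 * (1 / 4)) * A ≤
        ((C * ((p : ℝ) + 1) + d) * μ - d * ((p : ℝ) + 2) - C * (q * μ ^ 2)) * A :=
      mul_le_mul_of_nonneg_right hprod hA.le
    have q4 : ε * A * (((p : ℝ) + 3) * (C + d)) ≤ ε * A * (((p : ℝ) + 3) * ((p : ℝ) + 3) ^ 2) := by
      apply mul_le_mul_of_nonneg_left _ (by positivity)
      exact mul_le_mul_of_nonneg_left hCd (by positivity)
    linarith
  have hb : 0 < (p : ℝ) + 3 - r := by linarith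
  have hl2 : e1 p / 64 * A ≤
      ((p : ℝ) + 3 - r) * (((p : ℝ) + 2) * ((p : ℝ) + 1) * T - (S2 - S1)) := by
    refine le_trans ?_ (hl.trans hs')
    apply mul_le_mul_of_nonneg_right _ hA.le
    linarith
  obtain ⟨X, hX⟩ : ∃ X : ℝ, X = ((p : ℝ) + 2) * ((p : ℝ) + 1) * T - (S2 - S1) := ⟨_, rfl⟩
  rw [← hX] at hl2
  have hpos : 0 < X := by
    have : 0 < ((p : ℝ) + 3 - r) * X := lt_of_lt_of_le (by positivity) hl2
    exact (pos_iff_pos_of_mul_pos this).mp hb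
  have hl3 : e1 p / 64 * A ≤ ((p : ℝ) + 3) * X :=
    hl2.trans (mul_le_mul_of_nonneg_right (by linarith) hpos.le)
  have hl4 : e1 p / (64 * ((p : ℝ) + 3)) * A ≤ X := by
    have e7 : e1 p / 64 * A = ((p : ℝ) + 3) * (e1 p / (64 * ((p : ℝ) + 3)) * A) := by
      field_simp
    rw [e7] at hl3
    exact le_of_mul_le_mul_left hl3 (by positivity)
  -- conclusion
  have hS : S2 - S1 = ((p : ℝ) + 2) * ((p : ℝ) + 1) * T - X := by rw [hX]; ring
  rw [hS] at h6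
  have k1 : c * (((p : ℝ) + 2) * ((p : ℝ) + 1) * T - X) / (((p : ℝ) + 2) * ((p : ℝ) + 1)) ≤
      c * T - c * (e1 p / (64 * ((p : ℝ) + 3) ^ 3) * A) := by
    have k4 : c * (((p : ℝ) + 2) * ((p : ℝ) + 1) * T - X) / (((p : ℝ) + 2) * ((p : ℝ) + 1)) =
        c * T - c * (X / (((p : ℝ) + 2) * ((p : ℝ) + 1))) := by
      field_simp
    rw [k4]
    have k5 : e1 p / (64 * ((p : ℝ) + 3) ^ 3) * A ≤ X / (((p : ℝ) + 2) * ((p : ℝ) + 1)) := by
      rw [le_div_iff₀ (by positivity)]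
      refine le_trans ?_ hl4
      have e8 : e1 p / (64 * ((p : ℝ) + 3)) * A =
          e1 p / (64 * ((p : ℝ) + 3) ^ 3) * A * ((p : ℝ) + 3) ^ 2 := by
        field_simp
      rw [e8]
      apply mul_le_mul_of_nonneg_left _ (by positivity)
      nlinarith
    have k6 := mul_le_mul_of_nonneg_left k5 (show 0 ≤ c by linarith)
    linarith
  have k7 : e1 p / (64 * ((p : ℝ) + 3) ^ 3) = 2 * ε := by
    rw [hε]; field_simp; norm_num
  rw [k7] at k1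
  have k8 : ε * A ≤ c * (ε * A) := le_mul_of_one_le_left (by positivity) hc
  have k9 : t * (c * T) ≤ c * (ε * A) := by
    have m1 : T ≤ 2 * A := by
      have : (1 + ε) * A ≤ 2 * A := mul_le_mul_of_nonneg_right (by linarith) hA.le
      linarith
    have m2 : t * (c * T) ≤ t * (c * (2 * A)) := by
      apply mul_le_mul_of_nonneg_left _ ht0
      exact mul_le_mul_of_nonneg_left m1 (by linarith)
    have m3 : 2 * t ≤ ε := by
      rw [← hεe] at ht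
      nlinarith
    have m4 : c * A * (2 * t) ≤ c * A * ε := mul_le_mul_of_nonneg_left m3 (by positivity)
    linarith
  linarith

theorem NDM9_thm (hG : GC9Stmt) (hP : PRFStmt) (hC : CCK0Stmt) (hO : GCO0Stmt) : NDM9Stmt := by
  intro p w r h
  obtain ⟨h0, -, g1, g2, -, glast⟩ := hG p w r h
  have hp0 : (0 : ℝ) ≤ p := Nat.cast_nonneg p
  have he : 0 < e1 p := by unfold e1; positivity
  set ε : ℝ := e1 p / (128 * ((p : ℝ) + 3) ^ 3) with hε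
  have hε0 : 0 < ε := by positivity
  obtain ⟨e₀, he₀, hP1⟩ := hP p ε hε0
  refine ⟨min e₀ (e1 p / 2), lt_min he₀ (by positivity), fun C => ?_⟩
  obtain ⟨a₀, hP2⟩ := hP1 C
  refine ⟨max a₀ 1, fun a ha V _ G e W P U hStr he0 hee hCB z hz hn => ?_⟩
  have ha0 : a₀ ≤ a := le_trans (le_max_left _ _) ha
  have ha1 : 1 ≤ a := le_trans (le_max_right _ _) ha
  have haR : (0 : ℝ) < a := by exact_mod_cast ha1
  obtain ⟨-, p2, p3, -, p5, p6, p7⟩ := hP2 a ha0 G e W P U hStr he0 (hee.trans (min_le_left _ _)) hCB z hz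
  obtain ⟨c1, -, -, -⟩ := hC G p w r a e C W P U h0 hStr he0 (hee.trans (min_le_right _ _)) hCB z hz
  obtain ⟨o1, -⟩ := hO p w r h0
  have hwp := h.wp
  set X := un P with hX
  set μ : ℝ := ((nb G X z).card : ℝ) / a with hμ
  have hμn : ((nb G X z).card : ℝ) = μ * a := by rw [hμ]; field_simp
  have hA : (0 : ℝ) < (a : ℝ) ^ (p + 3) := by positivity
  have hch : 1 ≤ (p + 2).choose (w + 1) := Nat.choose_pos (by omega)
  have hch' : (1 : ℝ) ≤ ((p + 2).choose (w + 1) : ℝ) := by exact_mod_cast hch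
  have hT : TZ G p r X z ≤ (kc G X (p + 3) : ℝ) := by
    unfold TZ
    have : (kc G X (p + 3) : ℝ) = ∑ L ∈ clq G X (p + 3), (1 : ℝ) := by
      rw [sum_const, nsmul_eq_mul, mul_one]
      rfl
    rw [this]
    exact sum_le_sum fun L hL => (o1 _ (c1 L hL)).2.1
  obtain ⟨S1, hS1⟩ : ∃ S : ℝ, S = ∑ L ∈ clq G X (p + 3), ((nb G L z).card : ℝ) := ⟨_, rfl⟩
  obtain ⟨S2, hS2⟩ : ∃ S : ℝ, S = ∑ L ∈ clq G X (p + 3), ((nb G L z).card : ℝ) ^ 2 := ⟨_, rfl⟩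
  have hN1 : (kc G X (p + 3) : ℝ) = ∑ L ∈ clq G X (p + 3), (1 : ℝ) := by
    rw [sum_const, nsmul_eq_mul, mul_one]
    rfl
  have hs : (2 * (p : ℝ) + 4 - r) * ((p : ℝ) + 2) * S1 - (2 * (p : ℝ) + 4 - r) * S2 -
      2 * ((r : ℝ) - 1) * ((p : ℝ) + 1) * ((p : ℝ) + 2) * (kc G X (p + 3) : ℝ) +
      2 * ((r : ℝ) - 1) * ((p : ℝ) + 1) * S1 ≤
      ((p : ℝ) + 3 - r) * (((p : ℝ) + 2) * ((p : ℝ) + 1) * TZ G p r X z - (S2 - S1)) := by
    have s1 := sum_le_sum fun L hL => g1 _ (c1 L hL)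
    have s2 : ∑ L ∈ clq G X (p + 3), (((p : ℝ) + 2 - (nb G L z).card) *
        ((2 * (p : ℝ) + 4 - r) * (nb G L z).card - 2 * ((r : ℝ) - 1) * ((p : ℝ) + 1))) =
        (2 * (p : ℝ) + 4 - r) * ((p : ℝ) + 2) * S1 - (2 * (p : ℝ) + 4 - r) * S2 -
      2 * ((r : ℝ) - 1) * ((p : ℝ) + 1) * ((p : ℝ) + 2) * (kc G X (p + 3) : ℝ) +
      2 * ((r : ℝ) - 1) * ((p : ℝ) + 1) * S1 := by
      rw [hN1, hS1, hS2, mul_sum, mul_sum, mul_sum, mul_sum, ← sum_sub_distrib, ← sum_sub_distrib,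
        ← sum_add_distrib]
      exact sum_congr rfl fun L _ => by ring
    have s3 : ∑ L ∈ clq G X (p + 3), (((p : ℝ) + 3 - r) * (((p : ℝ) + 2) * ((p : ℝ) + 1) *
        ww p r (nb G L z).card - (nb G L z).card * (((nb G L z).card : ℝ) - 1))) =
        ((p : ℝ) + 3 - r) * (((p : ℝ) + 2) * ((p : ℝ) + 1) * TZ G p r X z - (S2 - S1)) := by
      unfold TZ
      rw [← mul_sum, sum_sub_distrib, ← mul_sum, hS1, hS2, ← sum_sub_distrib]
      congr 2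
      exact sum_congr rfl fun L _ => by ring
    rw [← s2, ← s3]
    exact s1
  have h6 : (kc G (nb G X z) (w + 1) : ℝ) * (a : ℝ) ^ (p + 3 - (w + 1)) ≤
      ((p + 2).choose (w + 1) : ℝ) * (S2 - S1) /
        (((p : ℝ) + 2) * ((p : ℝ) + 1)) + ε * (a : ℝ) ^ (p + 3) := by
    refine (p6 (w + 1) (by omega)).trans ?_
    have : ∑ L ∈ clq G X (p + 3), ((nb G L z).card.choose (w + 1) : ℝ) ≤
        ((p + 2).choose (w + 1) : ℝ) * (S2 - S1) / (((p : ℝ) + 2) * ((p : ℝ) + 1)) := by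
      rw [le_div_iff₀ (by positivity), sum_mul, hS1, hS2, ← sum_sub_distrib, mul_sum]
      refine sum_le_sum fun L hL => ?_
      refine (g2 _ (c1 L hL)).trans (le_of_eq ?_)
      ring
    linarith
  have pw1 : (a : ℝ) ^ (p + 3) = (a : ℝ) ^ (p + 2) * a := by rw [← pow_succ]
  have pw2 : (a : ℝ) ^ (p + 3) = (a : ℝ) ^ (p + 1) * a ^ 2 := by rw [← pow_add]
  have t0 : et p w * (256 * ((p : ℝ) + 3) ^ 3) ≤ e1 p := by
    have : et p w * (256 * ((p : ℝ) + 3) ^ 3) =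
        e1 p / (((w : ℝ) + 2) * (p + 2).choose (w + 1)) := by
      unfold et
      have : ((p + 2).choose (w + 1) : ℝ) ≠ 0 := by positivity
      field_simp
    rw [this]
    apply div_le_self he.le
    have hw : (0 : ℝ) ≤ w := Nat.cast_nonneg w
    nlinarith
  have t1 : 0 ≤ et p w := by unfold et; positivity
  have hp2 : 2 ≤ p := by
    have q1 := h.r2
    have q2 := h.rb
    omega
  have key := NDM9_num p r hp2 h.r2 h.rb glast ε μ ((a : ℝ) ^ (p + 3)) (kc G X (p + 3)) S1 S2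
    (TZ G p r X z)
    ((kc G (nb G X z) (w + 1) : ℝ) * (a : ℝ) ^ (p + 3 - (w + 1))) ((p + 2).choose (w + 1))
    hA hε hch' p2
    (by
      rw [hS1]
      refine le_trans (le_of_eq ?_) p3
      rw [hμn, pw1]; ring)
    (by
      rw [hS2]
      refine p5.trans (le_of_eq ?_)
      rw [hμn]
      have : μ * a * (a : ℝ) ^ (p + 2) = μ * (a : ℝ) ^ (p + 3) := by rw [pw1]; ring
      rw [this]
      have : ((p : ℝ) + 1) / ((p : ℝ) + 2) * (μ * a) ^ 2 * (a : ℝ) ^ (p + 1) =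
          ((p : ℝ) + 1) / ((p : ℝ) + 2) * (μ ^ 2 * (a : ℝ) ^ (p + 3)) := by rw [pw2]; ring
      rw [this])
    h6
    (by
      rw [hμ, div_le_iff₀ haR]; exact p7)
    (by
      rw [hμ, le_div_iff₀ haR]; exact hn)
    hT hs (et p w) t0 t1
  unfold nd
  apply max_eq_left
  have pw3 : (a : ℝ) ^ (p + 3) = (a : ℝ) ^ (p + 3 - (w + 1)) * (a : ℝ) ^ (w + 1) := by
    rw [← pow_add]; congr 1; omega
  have hd : (0 : ℝ) < (a : ℝ) ^ (p + 3 - (w + 1)) := by positivity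
  have e9 : (1 - et p w) * ((p + 2).choose (w + 1) * (a : ℝ) ^ (w + 1) / (a : ℝ) ^ (p + 3)) *
      TZ G p r X z = (1 - et p w) * ((p + 2).choose (w + 1) * TZ G p r X z) /
        (a : ℝ) ^ (p + 3 - (w + 1)) := by
    rw [pw3]
    have : (a : ℝ) ^ (w + 1) ≠ 0 := by positivity
    field_simp
  rw [e9, sub_nonpos, le_div_iff₀ hd]
  exact key

end Pool.GV7
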